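import Pool.Agent.Helper21.PT.Exl
import Pool.Agent.Helper5.DO.Pln
import Pool.Agent.Helper24.PR1.Fin

/-! Row [EXC0]: the new base coordinate of the prolonged corners is real over the lower point. -/

set_option autoImplicit false

namespace Pool.Agent.Helper21.PT

open Finset Filter Topology Pool.Agent.Helper69.RK Pool.Agent.Helper31.EC Pool.Agent.Helper31.EC.Sp
open Pool.Agent.Helper31.EC.QS Pool.Agent.Helper84.MT Pool.Agent.Helper36.AM Pool.Agent.Helper13.AM
open Pool.Agent.Helper5.DO Pool.Agent.Helper10.BLD Pool.Agent.Helper40.EL Pool.Agent.Helper89.LX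
open Pool.Agent.Helper5.HB (cq)
open Pool.Agent.Helper24.PR (spl_card stqe_ncq)
open Pool.Agent.Helper24.PR1 (sys_c1 x2 id_qs)

noncomputable section

/-- **[EXC0]** -/
theorem exc0_of (M : ℕ) (hA : ST_AXP) (hLB : ST_LBK) (hTN : ST_TN) (hV : ST_VWP (M + 1)) (hVT : ST_VWT (M + 1)) :
    ST_EXC0 M := by
  intro g r Cl w ρ TT N r' P l K X T c O hc i
  have hN := spl_card P
  rw [Fintype.card_fin, Fintype.card_fin] at hN
  have hcard : Fintype.card (Fin (1 + 1) ⊕ Fin N) = M + 2 + 1 := by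
    rw [Fintype.card_sum, Fintype.card_fin, Fintype.card_fin]
    omega
  obtain ⟨e, -⟩ : ∃ e : Fin (1 + 1) ⊕ Fin N ≃ Fin (M + 2 + 1), True := ⟨Fintype.equivFinOfCardEq hcard, trivial⟩
  obtain ⟨h₀, hh, key⟩ := sys_c1 (r' := r') hA hLB hTN hV hVT X.hom P X.low X.wl X.hK X.cls e
  obtain ⟨gg, s, J, s1, s2, s3, s4, s5, s6⟩ := key T c O hc i (fun _ => 0) fun j => (PK ⊥).zero_mem
  have hx : ∀ a, x2 c l K i (fun _ => 0) a = ptf c l K i a := by
    rintro (b | j)
    · rfl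
    · show c.R j - MvPolynomial.eval _ (0 : MvPolynomial (Fin (1 + 1) ⊕ Fin N) (QS T)) = c.R j
      rw [map_zero, sub_zero]
  have he : ∀ a, ptf c l K i a = cq s.Q (e a) := fun a => ((s2 a).trans (hx a)).symm
  have hst : STQE (![c.q 0, fl c l K i] : Fin (1 + 1) → QS T) c.R 1 := by
    refine stqe_ncq (Pj.id T) s e rfl s1 hh s6
      (fun T' p E hE D => vol_c1_im X.cls hc i s e he id (fun j => (s5 j).1) p E hE D) ?_ _ _ fun a => ?_
    · rw [Fintype.card_fin]
      exact X.dk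
    · rw [id_qs, ← he]
      rfl
  exact exc_of_stqe c P.z _ (pln X.cls hc i).ge hst

/-- **[EXC0]**, closed -/
theorem st_exc0 (M : ℕ) : ST_EXC0 M :=
  exc0_of M Pool.Agent.Helper99.BLD.st_axp (Pool.Agent.Helper90.BLD.st_lbk Pool.Agent.Helper99.BLD.st_axp)
    Pool.Agent.Helper33.CM.st_tn (Pool.Agent.Helper68.VW.st_vwp (M + 1)) (Pool.Agent.Helper99.BLD.st_vwt (M + 1))

end

end Pool.Agent.Helper21.PT
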