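import Pool.Agent.Helper5.DO.TilX
import Pool.Agent.Helper13.AM.Cor

/-! PROPER QUOTIENTS OF THE PROLONGED CORNER, part 4: the new base coordinate is real over the lower point, from the
proper quotients at the point `(t, f, R)`. -/

set_option autoImplicit false

namespace Pool.Agent.Helper21.PT

open Finset Filter Topology Pool.Agent.Helper69.RK Pool.Agent.Helper31.EC Pool.Agent.Helper31.EC.Sp
open Pool.Agent.Helper31.EC.QS Pool.Agent.Helper40.EL Pool.Agent.Helper13.AM
open Pool.Agent.Helper5.DO (T1)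

noncomputable section

variable {S : Sp} {N r : ℕ}

/-- (EXC0) from the proper quotients at the point `(t, f, R)` in the direction of the last coordinate -/
theorem exc_of_stqe (c : CD S 0 N r) (z : Fin N) (f : QS S) (hp : 2 ≤ H (dg (c.q 0) 1 ⊔ dg f 1))
    (hs : STQE (![c.q 0, f] : Fin (1 + 1) → QS S) c.R 1) : 1 ≤ h (dg f 1) (T1 c z) := by
  classical
  have hT : Typ (fun k (_ : (S.F k).Ω) => True) := Typ_true
  obtain ⟨v, hv⟩ : ∃ v : Fin N → QS (S.rest fun k (_ : (S.F k).Ω) => True), v = fun j => if j = z then 1 else 0 :=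
    ⟨_, rfl⟩
  have hv1 : vd v 1 = ⊥ := by
    apply le_antisymm _ bot_le
    rw [vd_le]
    intro j
    rw [hv]
    show dg (if j = z then 1 else 0) 1 ≤ ⊥
    split_ifs
    · exact (Kn _ 1 le_rfl _).one_mem
    · exact (Kn _ 1 le_rfl _).zero_mem
  have h0 : Nul (S.rest fun k (_ : (S.F k).Ω) => True) (fun _ => (0 : ℝ)) := by
    unfold Nul
    simp only [zero_div]
    exact tendsto_const_nhds
  have h1 := hs S (Pj.id S) (fun k _ => True) (ul_pr_typ_pos _ hT) (fun _ => Unit) (fun _ _ => ()) (by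
    refine Nul.of_le h0 (Eventually.of_forall fun k => I_nonneg _ _ _) (Eventually.of_forall fun k => ?_)
    refine (I_le_h_left _ _ _).trans (le_of_eq ?_)
    rw [h_eq_zero_iff]
    have e1 : (Setoid.ker (fun (_ : (S.F k).Ω) => ())) = ⊤ := by
      ext a b
      simp [Setoid.ker_def]
    exact le_of_eq (congrArg (fun x => fc (F := (S.rest fun k (_ : (S.F k).Ω) => True).F k) x) e1)) v z (by
      rw [hv]
      simp) (by rw [hv1]; exact bot_le) 1 zero_le_one le_rfl
  rw [hv1, sup_bot_eq, Pj.id_map, Fintype.card_fin, mul_one] at h1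
  have h2 : vd (Pool.Agent.Helper96.FWC.wg (fun i => QS.rest (fun k _ => True) (ul_pr_typ_pos _ hT)
      ((Pj.id S).qs (c.R i))) v z) 1 ≤ restL (fun k _ => True) (ul_pr_typ_pos _ hT) (vd (c.M z) 1) := by
    rw [vd_le]
    intro j
    have e1 : Pool.Agent.Helper96.FWC.wg (fun i => QS.rest (fun k _ => True) (ul_pr_typ_pos _ hT)
      ((Pj.id S).qs (c.R i))) v z j = if j = z then 0 else QS.rest (fun k _ => True) (ul_pr_typ_pos _ hT) (c.R j) := by
      unfold Pool.Agent.Helper96.FWC.wg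
      rw [hv]
      by_cases hj : j = z
      · rw [if_pos hj, hj]
        ring
      · rw [if_neg hj]
        show _ * (if z = z then 1 else 0) - _ * (if j = z then 1 else 0) = _
        rw [if_pos rfl, if_neg hj, mul_one, mul_zero, sub_zero]
        show QS.rest (fun k _ => True) (ul_pr_typ_pos _ hT) ((Pj.id S).qs (c.R j)) = _
        rw [Pj.id_qs]
    rw [e1]
    split_ifs with hj
    · have e2 : dg (0 : QS (S.rest fun k (_ : (S.F k).Ω) => True)) 1 ≤ ⊥ := (Kn _ 1 le_rfl _).zero_mem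
      exact e2.trans bot_le
    · rw [QS.rest_dg]
      exact restL_mono _ _ (dg_le_vd (c.M z) 1 ⟨j, hj⟩)
  have h3 := h_mono (B := restL (fun k _ => True) (ul_pr_typ_pos _ hT) (vd (![c.q 0, f] : Fin (1 + 1) → QS S) 1)) h2
  rw [h1, h_restL_typ _ hT] at h3
  have e3 : vd (![c.q 0, f] : Fin (1 + 1) → QS S) 1 = dg (c.q 0) 1 ⊔ dg f 1 := by
    apply le_antisymm
    · rw [vd_le]
      intro i
      fin_cases i
      · exact le_sup_left
      · exact le_sup_right
    · exact sup_le (dg_le_vd (![c.q 0, f] : Fin (1 + 1) → QS S) 1 0) (dg_le_vd (![c.q 0, f] : Fin (1 + 1) → QS S) 1 1)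
  rw [e3] at h3
  have h4 : H (T1 c z) ≤ N := by
    unfold T1
    refine (H_sup_le _ _).trans ?_
    have h5 : H (vd (c.M z) 1) ≤ (N : ℝ) - 1 := by
      have h6 := h_sd_le (c.M z) Finset.univ ⊥
      rw [h_bot] at h6
      have h7 : (Finset.univ : Finset {j : Fin N // j ≠ z}).card = N - 1 := by
        rw [Finset.card_univ, Fintype.card_subtype_compl, Fintype.card_fin, Fintype.card_subtype_eq]
      rw [h7] at h6
      have h8 : 1 ≤ N := z.pos
      rw [Nat.cast_sub h8, Nat.cast_one] at h6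
      exact h6
    have h9 := H_dg_le (c.q 0) zero_le_one
    linarith
  have e4 : h (dg f 1) (T1 c z) = H (T1 c z ⊔ dg f 1) - H (T1 c z) := by
    unfold h
    rw [sup_comm]
  have e5 : T1 c z ⊔ dg f 1 = vd (c.M z) 1 ⊔ (dg (c.q 0) 1 ⊔ dg f 1) := by
    unfold T1
    rw [sup_assoc]
  have e6 : H (vd (c.M z) 1 ⊔ (dg (c.q 0) 1 ⊔ dg f 1)) =
      h (vd (c.M z) 1) (dg (c.q 0) 1 ⊔ dg f 1) + H (dg (c.q 0) 1 ⊔ dg f 1) := by
    unfold h
    ring
  rw [e4, e5, e6]
  linarith

end

end Pool.Agent.Helper21.PT
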