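import Pool.Agent.Helper81.AD.Pl

/-! PROPER QUOTIENTS OF THE PROLONGED CORNER, part 2: the leaf of a polynomial leaf of the exact calculus, with its charts
on a typical event (outside: constant charts). -/

set_option autoImplicit false

namespace Pool.Agent.Helper21.PT

open Finset Filter Topology Matrix Pool.Agent.Helper69.RK Pool.Agent.Helper31.EC Pool.Agent.Helper31.EC.Sp
open Pool.Agent.Helper40.EL Pool.Agent.Helper89.LX Pool.Agent.Helper3.LF Pool.Agent.Helper84.MT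
open Pool.Agent.Helper81.AD

noncomputable section

variable {S T : Sp} {M e : ℕ}

section

variable {E : ℕ → ℕ} {Q Q' : S.VV M} (l : Leaf S Q E) {A : ∀ k, (S.F k).Ω → Prop} (hA : Typ A)
    (hE : ∀ D, D ≤ E D)
    (hQ : ∃ K : ℕ → ℝ, S.Sub K ∧ ∀ᶠ k in UF, ∀ ω, (S.F k).μ ω ≠ 0 → A k ω → ∀ i,
      |Q'.v k ω i - Q.v k ω i| ≤ K k * S.dl 1 k)

/-- the charts of the leaf of an equal point -/
theorem toQ_F_pos {k : ℕ} {ω : (S.F k).Ω} (h : A k ω) : (l.toQ hA hE hQ).F k ω = l.F k ω := by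
  exact if_pos h

theorem toQ_F_neg {k : ℕ} {ω : (S.F k).Ω} (h : ¬ A k ω) (y y' : Fin (l.toQ hA hE hQ).e → ℝ) :
    (l.toQ hA hE hQ).F k ω y = (l.toQ hA hE hQ).F k ω y' := by
  have h1 : (l.toQ hA hE hQ).F k ω =
      (LeafD.triv (Q'.rest fun k ω => ¬ A k ω) hE l.e).F k ω := if_neg h
  rw [h1]
  rfl

end

/-- A POLYNOMIAL LEAF OF THE EXACT CALCULUS IS A LEAF, with its charts on a typical event -/
theorem exists_leafF (Q : S.VV M) (W : S.L) (Y : Fin e → QS S) (Φ : Fin M → MvPolynomial (Fin e) (QS S))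
    (hΦ : ∀ j, Φ j ∈ QS.PK W) (hY : QS.Rl Y W) (hQ : ∀ j, QS.mk (TR.cor Q j) = MvPolynomial.eval Y (Φ j)) {g : ℕ}
    (hg : 1 ≤ g) (he : e ≤ g) (hd : ∀ j, (Φ j).totalDegree ≤ g) :
    ∃ (l : Leaf S Q (lin g)) (hl : l.e = e) (A : ∀ k, (S.F k).Ω → Prop), Typ A ∧
      (∀ c : ℝ, c ≤ 1 → PLe (l.win c) (rp (W ⊔ QS.vd Y c)) ∧ PLe (rp (W ⊔ QS.vd Y c)) (l.win c)) ∧
      (∀ k ω, A k ω → ∀ (y : Fin l.e → ℝ) j, l.F k ω y j =
        MvPolynomial.eval (fun a => y (Fin.cast hl.symm a)) (lG Φ k ω j)) ∧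
      ∀ k ω, ¬ A k ω → ∀ y y', l.F k ω y = l.F k ω y' := by
  set y : Fin e → TR S := fun i => QS.rep (Y i) with hy
  have hyY : (fun i => QS.mk (y i)) = Y := funext fun i => QS.mk_rep (Y i)
  have hfull : Tendsto (fun k => h (fc (Setoid.ker ((TR.vec y).cellv 1 k))) (fc ((pI Φ W).1 k)) / (S.F k).n) UF
      (𝓝 (e : ℝ)) := by
    have h1 : UB (S.rt ((TR.vec y).bdd 1).toInf.1 (pI Φ W).1) := UB_rt _ _
    have h2 := ul_tendsto h1
    have h3 : ul (S.rt ((TR.vec y).bdd 1).toInf.1 (pI Φ W).1) = e := by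
      rw [← h_cl, cl_pI Φ hΦ]
      have e1 : cl ((TR.vec y).bdd 1).toInf = (TR.vec y).dg 1 := (io_eq ((TR.vec y).bdd 1)).symm
      rw [e1, ← vd_mk y le_rfl, hyY]
      have h4 : h (QS.vd Y 1) W = Fintype.card (Fin e) := hY
      rw [h4, Fintype.card_fin]
    rw [h3] at h2
    refine h2.congr fun k => ?_
    rw [h_fc]
    rfl
  set l0 : Leaf S (lQ' Φ (TR.vec y) hd) (lin g) := Leaf.ofPoly g hg e he (pI Φ W).1 (TR.vec y) (fun k ω => lG Φ k ω)
    (fun k ω i => lG_deg Φ hd k ω i) (Eventually.of_forall fun k ω ω' _ _ _ r => lG_fn Φ k ω ω' r.2) (lG_bd Φ)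
    ⟨fun _ => 0, S.Sub_const le_rfl, Eventually.of_forall fun k ω _ i => by
      show |MvPolynomial.eval _ _ - MvPolynomial.eval _ _| ≤ _
      rw [sub_self, abs_zero, zero_mul]⟩ hfull with hl0
  have hag : ∀ j, TR.Ag 1 (TR.cor Q j) (TR.cor (lQ' Φ (TR.vec y) hd) j) := by
    intro j
    rw [← QS.mk_eq, hQ j, lQ'_eq, hyY]
  choose A K hA hK hh using hag
  have hTy := Typ_all A hA
  have hE : ∀ D, D ≤ Pool.Agent.Helper84.MT.lin g D := by
    intro D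
    unfold Pool.Agent.Helper84.MT.lin
    nlinarith
  have hQ' : ∃ K : ℕ → ℝ, S.Sub K ∧ ∀ᶠ k in UF, ∀ ω, (S.F k).μ ω ≠ 0 → (∀ j, A j k ω) → ∀ i,
      |Q.v k ω i - (lQ' Φ (TR.vec y) hd).v k ω i| ≤ K k * S.dl 1 k := by
    have hS : ∀ s : Finset (Fin M), S.Sub (fun k => ∑ i ∈ s, K i k) := by
      intro s
      induction s using Finset.induction_on with
      | empty => simpa using S.Sub_const le_rfl
      | insert a s ha ih =>
        have h1 := (hK a).add ih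
        simpa [Finset.sum_insert ha] using h1
    refine ⟨fun k => ∑ i, K i k, hS Finset.univ, ?_⟩
    have h1 : ∀ᶠ k in UF, ∀ i ∈ (Finset.univ : Finset (Fin M)), 0 ≤ K i k ∧ ∀ ω, (S.F k).μ ω ≠ 0 → A i k ω →
        |TR.ev (TR.cor Q i) k ω - TR.ev (TR.cor (lQ' Φ (TR.vec y) hd) i) k ω| ≤ K i k * S.dl 1 k := by
      rw [Filter.eventually_all_finset]
      intro i _
      exact (hK i).1.and (hh i)
    filter_upwards [h1] with k hk ω hω hAk i
    refine ((hk i (Finset.mem_univ i)).2 ω hω (hAk i)).trans ?_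
    apply mul_le_mul_of_nonneg_right _ (S.dl_pos 1 k).le
    exact Finset.single_le_sum (f := fun i => K i k) (fun j _ => (hk j (Finset.mem_univ j)).1) (Finset.mem_univ i)
  have hV : S.VB l0.La := (pI Φ W).2
  have hcW : ∀ {X : S.Inf}, PLe (rpI X) (rp (cl X)) ∧ PLe (rp (cl X)) (rpI X) := fun {X} => ⟨(rp_rpI X).2, (rp_rpI X).1⟩
  refine ⟨l0.toQ hTy hE hQ', rfl, fun k ω => ∀ j, A j k ω, hTy, fun c hc => ?_, fun k ω h y j => ?_,
    fun k ω h y y' => toQ_F_neg l0 hTy hE hQ' h y y'⟩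
  · have e1 : cl (Inf.sup (pI Φ W) ((TR.vec y).bdd c).toInf) = W ⊔ QS.vd Y c := by
      rw [cl_sup, cl_pI Φ hΦ]
      have e2 : cl ((TR.vec y).bdd c).toInf = (TR.vec y).dg c := (io_eq ((TR.vec y).bdd c)).symm
      rw [e2, ← vd_mk y hc, hyY]
    have h1 := hcW (X := Inf.sup (pI Φ W) ((TR.vec y).bdd c).toInf)
    rw [e1] at h1
    exact ⟨(toQ_win_le l0 hTy hE hQ' c).trans h1.1, PLe.trans h1.2 (toQ_win_ge l0 hTy hE hQ' c hV)⟩
  · rw [toQ_F_pos l0 hTy hE hQ' h]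
    rfl

end

end Pool.Agent.Helper21.PT
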