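import Pool.Agent.Helper21.PT.Lf
import Pool.Agent.Helper37.DK2.Ncq
import Pool.Agent.Helper5.DO.Der
import Pool.Agent.Helper5.HB.Sel

/-! PROPER QUOTIENTS OF THE PROLONGED CORNER, part 3: the system of leaves of a point with curves which are polynomials in
one parameter: windows, affine coordinates, (R1). -/

set_option autoImplicit false

namespace Pool.Agent.Helper21.PT

open Finset Filter Topology Matrix Pool.Agent.Helper69.RK Pool.Agent.Helper31.EC Pool.Agent.Helper31.EC.Sp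
open Pool.Agent.Helper40.EL Pool.Agent.Helper89.LX Pool.Agent.Helper3.LF Pool.Agent.Helper84.MT
open Pool.Agent.Helper81.AD Pool.Agent.Helper49.MD Pool.Agent.Helper37.DK2
open Pool.Agent.Helper5.DO (PU)

noncomputable section

variable {S : Sp} {m r g : ℕ}

/-! ### polynomials in one variable -/

section

variable {A : Type*} [CommRing A]

/-- a polynomial as a polynomial of one variable of a family -/
def u1 (P : Polynomial A) : MvPolynomial (Fin 1) A :=
  ∑ n ∈ P.support, MvPolynomial.monomial (Finsupp.single 0 n) (P.coeff n)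

theorem fin1_single (a : Fin 1 →₀ ℕ) : a = Finsupp.single 0 (a 0) := by
  refine Finsupp.ext fun i => ?_
  have e : i = 0 := Fin.ext (by omega)
  rw [e, Finsupp.single_eq_same]

theorem u1_coeff (P : Polynomial A) (a : Fin 1 →₀ ℕ) : (u1 P).coeff a = P.coeff (a 0) := by
  classical
  unfold u1
  rw [MvPolynomial.coeff_sum]
  simp only [MvPolynomial.coeff_monomial]
  by_cases h : a 0 ∈ P.support
  · rw [Finset.sum_eq_single (a 0)]
    · rw [if_pos (fin1_single a).symm]
    · intro b _ hb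
      rw [if_neg]
      intro hc
      apply hb
      rw [← hc, Finsupp.single_eq_same]
    · intro hc
      exact absurd h hc
  · rw [Polynomial.notMem_support_iff.mp h]
    refine Finset.sum_eq_zero fun n hn => ?_
    rw [if_neg]
    intro hc
    apply h
    rw [← hc, Finsupp.single_eq_same]
    exact hn

theorem u1_eval (P : Polynomial A) (y : Fin 1 → A) : MvPolynomial.eval y (u1 P) = P.eval (y 0) := by
  unfold u1
  rw [map_sum, Polynomial.eval_eq_sum]
  refine Finset.sum_congr rfl fun n _ => ?_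
  have h : ((Finsupp.single (0 : Fin 1) n).prod fun i e => y i ^ e) = y 0 ^ n := Finsupp.prod_single_index (pow_zero _)
  rw [MvPolynomial.eval_monomial, h]

theorem u1_deg (P : Polynomial A) {n : ℕ} (hP : P.natDegree ≤ n) : (u1 P).totalDegree ≤ n := by
  unfold u1
  refine MvPolynomial.totalDegree_finsetSum_le fun a ha => ?_
  refine (MvPolynomial.totalDegree_monomial_le _ _).trans ?_
  rw [Finsupp.sum_single_index rfl]
  exact (Polynomial.le_natDegree_of_mem_supp a ha).trans hP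

end

theorem u1_PK {P : Polynomial (QS S)} {W : S.L} (hP : P ∈ PU W) : u1 P ∈ QS.PK W := by
  intro a
  rw [u1_coeff]
  exact hP _

/-! ### coefficients of the literal polynomials -/

theorem lG_coeff_eq {M e : ℕ} (Φ : Fin M → MvPolynomial (Fin e) (QS S)) (k : ℕ) (ω : (S.F k).Ω) (j : Fin M)
    (b : Fin e →₀ ℕ) : (lG Φ k ω j).coeff b = by
      classical exact if b ∈ (Φ j).support then rnd (S.dl 1 k) (TR.ev (QS.rep ((Φ j).coeff b)) k ω) else 0 := by
  classical
  unfold lG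
  rw [MvPolynomial.coeff_sum]
  by_cases hb : b ∈ (Φ j).support
  · rw [if_pos hb, Finset.sum_eq_single (⟨b, hb⟩ : {a // a ∈ (Φ j).support})]
    · rw [MvPolynomial.coeff_monomial, if_pos rfl, cu_eq]
    · intro a _ hne
      rw [MvPolynomial.coeff_monomial, if_neg]
      intro h1
      exact hne (Subtype.ext h1)
    · intro h1
      exact absurd (Finset.mem_attach _ _) h1
  · rw [if_neg hb]
    refine Finset.sum_eq_zero fun a _ => ?_
    rw [MvPolynomial.coeff_monomial, if_neg]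
    intro h1
    exact hb (h1 ▸ a.2)

/-! ### affine coordinates -/

/-- the coordinates `J` are affine along the types -/
def AF {E : ℕ → ℕ} {ι : Type} (J : Finset (Fin m)) (s : MSys S m E ι) : Prop :=
  ∀ᶠ k in UF, ∀ ω, (S.F k).μ ω ≠ 0 → ∀ i, ∀ j ∈ J, ∀ y y' : Fin (s.lf i).e → ℝ,
    (s.lf i).F k ω y j - (s.lf i).F k ω y' j = ∑ a, (y a - y' a) * mtan (ob s k) ω ⟨i, a⟩ j

theorem mtan_of {E : ℕ → ℕ} {ι : Type} (s : MSys S m E ι) {k : ℕ} {ω : (S.F k).Ω} {i : ι} {j : Fin m}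
    (c : Fin (s.lf i).e → ℝ) (h : ∀ y y' : Fin (s.lf i).e → ℝ,
      (s.lf i).F k ω y j - (s.lf i).F k ω y' j = ∑ a, (y a - y' a) * c a) (a : Fin (s.lf i).e) :
    mtan (ob s k) ω ⟨i, a⟩ j = c a :=
  deriv_of_aff (fun y => (s.lf i).F k ω y j) c h _ a

theorem aff_of {E : ℕ → ℕ} {Q : S.VV m} {l : Leaf S Q E} {e : ℕ} (hl : l.e = e) {k : ℕ} {ω : (S.F k).Ω} {j : Fin m}
    {p : MvPolynomial (Fin e) ℝ} (hp : p.totalDegree ≤ 1)
    (hF : ∀ y, l.F k ω y j = MvPolynomial.eval (fun a => y (Fin.cast hl.symm a)) p) (y y' : Fin l.e → ℝ) :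
    l.F k ω y j - l.F k ω y' j = ∑ a, (y a - y' a) * p.coeff (Finsupp.single (Fin.cast hl a) 1) := by
  subst hl
  rw [hF, hF]
  exact eval_sub_of_deg p hp y y'

/-- informations of two variables are limits -/
theorem tendsto_I (A B : S.Inf) : Tendsto (fun k => I (fc (A.1 k)) (fc (B.1 k)) (⊥ : FL (S.F k)) / (S.F k).n) UF
    (𝓝 (I (cl A) (cl B) ⊥)) := by
  have h1 : I (cl A) (cl B) ⊥ = h (cl A) ⊥ - h (cl A) (cl B) := by rw [I_eq, sup_bot_eq]
  have e1 : (⊥ : S.L) = cl (⟨S.tr, S.VB_tr⟩ : S.Inf) := by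
    rw [← cl_bot]
    rfl
  have e2 : h (cl A) ⊥ = ul (S.rt A.1 S.tr) := by
    rw [e1, h_cl]
  have e3 : h (cl A) (cl B) = ul (S.rt A.1 B.1) := h_cl A B
  rw [h1, e2, e3]
  refine ((ul_tendsto (UB_rt A _)).sub (ul_tendsto (UB_rt A _))).congr fun k => ?_
  rw [I_eq, sup_bot_eq, sub_div]
  have e4 : (⊥ : FL (S.F k)) = fc (⊤ : Setoid (S.F k).Ω) := rfl
  rw [e4, h_fc, h_fc]
  rfl

/-- (R1) from the variable of the slopes: outside of events `A i` the tangents vanish, on `A i` they are functions of a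
variable `u` which is independent of the point -/
theorem R1_of {E : ℕ → ℕ} (s : MSys S m E (Fin r)) (J : Finset (Fin m)) {q : ℕ} (u : S.VV q)
    (A : Fin r → ∀ k, (S.F k).Ω → Prop) (hu : I (u.dg 1) (s.Q.dg 1) ⊥ = 0)
    (hA : ∀ᶠ k in UF, ∀ ω ω', (S.F k).μ ω ≠ 0 → (S.F k).μ ω' ≠ 0 → (∀ i, A i k ω ↔ A i k ω') →
      u.cellv 1 k ω = u.cellv 1 k ω' → ∀ i a, ∀ j ∈ J, mtan (ob s k) ω ⟨i, a⟩ j = mtan (ob s k) ω' ⟨i, a⟩ j) :
    R1 J s := by
  classical
  intro δ hδ
  have e1 : cl ((u.bdd 1).toInf) = u.dg 1 := (io_eq (u.bdd 1)).symm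
  have e2 : cl ((s.Q.bdd 1).toInf) = s.Q.dg 1 := (io_eq (s.Q.bdd 1)).symm
  have t1 := tendsto_I (u.bdd 1).toInf (s.Q.bdd 1).toInf
  rw [e1, e2, hu] at t1
  have t2 : Tendsto (fun k => h (fc (Setoid.ker fun ω (i : Fin r) => A i k ω) : FL (S.F k)) ⊥ / (S.F k).n) UF
      (𝓝 0) := by
    have h1 : ∀ k, h (fc (Setoid.ker fun ω (i : Fin r) => A i k ω) : FL (S.F k)) ⊥ ≤
        Real.logb 2 (Fintype.card (Fin r → Prop) + 1) := by
      intro k
      have h2 : (⊥ : FL (S.F k)) = fc (⊤ : Setoid (S.F k).Ω) := fc_top.symm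
      rw [h2, h_fc]
      exact Pool.Agent.Helper5.HB.e_fin (S.F k) (fun ω (i : Fin r) => A i k ω) _
    refine squeeze_zero (fun k => div_nonneg (h_nonneg _ _) (S.F k).pos.le) (fun k => ?_)
      (S.div_n_tendsto (Real.logb 2 (Fintype.card (Fin r → Prop) + 1)))
    exact div_le_div_of_nonneg_right (h1 k) (S.F k).pos.le
  filter_upwards [hA, t1.eventually (gt_mem_nhds (half_pos hδ)), t2.eventually (gt_mem_nhds (half_pos hδ))] with
    k k1 k2 k3
  have hn := (S.F k).pos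
  rw [div_lt_iff₀ hn] at k2 k3
  show I (fc (tcell (S.F k) (ob s k) J) : FL (S.F k)) (fc (cQ1 (S.F k) (ob s k))) ⊥ ≤ δ * (S.F k).n
  have k4 : (fc (tcell (S.F k) (ob s k) J) : FL (S.F k)) ≤ fc (Setoid.ker (u.cellv 1 k)) ⊔
      fc (Setoid.ker fun ω (i : Fin r) => A i k ω) := by
    rw [← fc_inf]
    apply fc_le
    intro ω ω' a b _ d
    show (fun (x : Σ i, Fin ((ob s k).lf i).e) (j : J) => ⌊mtan (ob s k) ω x j / dlF (S.F k) 1⌋) =
      fun (x : Σ i, Fin ((ob s k).lf i).e) (j : J) => ⌊mtan (ob s k) ω' x j / dlF (S.F k) 1⌋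
    funext x j
    obtain ⟨i, x⟩ := x
    rw [k1 ω ω' a b (fun i => by
      have h1 : (A i k ω) = (A i k ω') := congrFun d.2 i
      rw [h1]) d.1 i x j j.2]
  have k5 := I_mono_left (C := (⊥ : FL (S.F k))) (B := fc (cQ1 (S.F k) (ob s k))) (k4.trans le_sup_left)
  have k6 : I (fc (Setoid.ker (u.cellv 1 k)) ⊔ fc (Setoid.ker fun ω (i : Fin r) => A i k ω) : FL (S.F k))
      (fc (cQ1 (S.F k) (ob s k))) ⊥ ≤ I (fc (Setoid.ker (u.cellv 1 k)) : FL (S.F k)) (fc (cQ1 (S.F k) (ob s k))) ⊥ +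
        h (fc (Setoid.ker fun ω (i : Fin r) => A i k ω) : FL (S.F k)) ⊥ := by
    have e3 := I_eq (fc (Setoid.ker (u.cellv 1 k)) ⊔ fc (Setoid.ker fun ω (i : Fin r) => A i k ω) : FL (S.F k))
      (fc (cQ1 (S.F k) (ob s k))) ⊥
    have e4 := I_eq (fc (Setoid.ker (u.cellv 1 k)) : FL (S.F k)) (fc (cQ1 (S.F k) (ob s k))) ⊥
    rw [sup_bot_eq] at e3 e4
    have e5 := h_chain (fc (Setoid.ker (u.cellv 1 k)) : FL (S.F k)) (fc (Setoid.ker fun ω (i : Fin r) => A i k ω)) ⊥
    have e6 := h_mono (B := fc (cQ1 (S.F k) (ob s k))) (le_sup_left (a := (fc (Setoid.ker (u.cellv 1 k)) : FL (S.F k)))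
      (b := fc (Setoid.ker fun ω (i : Fin r) => A i k ω)))
    have e7 : h (fc (Setoid.ker fun ω (i : Fin r) => A i k ω) : FL (S.F k)) (fc (Setoid.ker (u.cellv 1 k)) ⊔ ⊥) ≤
        h (fc (Setoid.ker fun ω (i : Fin r) => A i k ω) : FL (S.F k)) ⊥ := h_anti le_sup_right
    linarith
  have k7 : I (fc (Setoid.ker (u.cellv 1 k)) : FL (S.F k)) (fc (cQ1 (S.F k) (ob s k))) ⊥ < δ / 2 * (S.F k).n := k2
  linarith

/-! ### the system -/

/-- degree of the literal polynomials, coordinate by coordinate -/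
theorem lG_deg1 {M e : ℕ} (Φ : Fin M → MvPolynomial (Fin e) (QS S)) (k : ℕ) (ω : (S.F k).Ω) (j : Fin M) {d : ℕ}
    (hd : (Φ j).totalDegree ≤ d) : (lG Φ k ω j).totalDegree ≤ d := by
  unfold lG
  refine MvPolynomial.totalDegree_finsetSum_le fun a _ => ?_
  refine (MvPolynomial.totalDegree_monomial_le _ _).trans ?_
  exact (MvPolynomial.le_totalDegree a.2).trans hd

/-- THE SYSTEM OF THE ONE PARAMETER CURVES: windows, affine coordinates, (R1) -/
theorem exists_sys1 (x : Fin m → QS S) (t : QS S) (ξ : Fin r → S.L) (ht : ∀ i, h (QS.dg t 1) (ξ i) = 1)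
    (Pl : Fin r → Fin m → Polynomial (QS S)) (hP : ∀ i j, Pl i j ∈ PU (ξ i)) (hx : ∀ i j, (Pl i j).eval t = x j)
    (hg : 1 ≤ g) (hd : ∀ i j, (Pl i j).natDegree ≤ g) (J : Finset (Fin m))
    (hJ : ∀ i, ∀ j ∈ J, (Pl i j).natDegree ≤ 1) (V : S.L) (hV : ∀ i, ∀ j ∈ J, QS.dg ((Pl i j).coeff 1) 1 ≤ V)
    (hI : I V (QS.vd x 1) ⊥ = 0) :
    ∃ s : MSys S m (Pool.Agent.Helper84.MT.lin g) (Fin r), (∀ j, QS.mk (TR.cor s.Q j) = x j) ∧ (∀ i, (s.lf i).e = 1) ∧
      (∀ i c, c ≤ 1 → PLe ((s.lf i).win c) (rp (ξ i ⊔ QS.dg t c)) ∧ PLe (rp (ξ i ⊔ QS.dg t c)) ((s.lf i).win c)) ∧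
      (∀ i, PLe ((s.lf i).win 0) (rp (ξ i)) ∧ PLe (rp (ξ i)) ((s.lf i).win 0)) ∧ AF J s ∧ R1 J s := by
  classical
  set Q : S.VV m := TR.vec fun j => QS.rep (x j) with hQ
  have hQx : ∀ j, QS.mk (TR.cor Q j) = x j := fun j => QS.mk_rep (x j)
  have hvd : ∀ c, QS.vd (fun _ : Fin 1 => t) c = QS.dg t c := by
    intro c
    apply le_antisymm
    · rw [QS.vd_le]
      intro _
      exact le_rfl
    · exact QS.dg_le_vd (fun _ : Fin 1 => t) c 0
  have hl := fun i => exists_leafF (g := g) Q (ξ i) (fun _ : Fin 1 => t) (fun j => u1 (Pl i j)) (fun j => u1_PK (hP i j))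
    (by
      show h (QS.vd (fun _ : Fin 1 => t) 1) (ξ i) = (Fintype.card (Fin 1) : ℝ)
      rw [hvd, ht i]
      simp)
    (fun j => by rw [u1_eval, hx i j, hQx j]) hg hg fun j => u1_deg _ (hd i j)
  choose lf hle A hTy hw hF hF' using hl
  set s : MSys S m (Pool.Agent.Helper84.MT.lin g) (Fin r) := ⟨Q, lf⟩ with hs
  -- the slopes
  have key : ∀ (k : ℕ) (ω : (S.F k).Ω) (i : Fin r) (j : Fin m), j ∈ J → ∀ y y' : Fin (s.lf i).e → ℝ,
      (s.lf i).F k ω y j - (s.lf i).F k ω y' j = ∑ a, (y a - y' a) *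
        (if A i k ω then (lG (fun j => u1 (Pl i j)) k ω j).coeff (Finsupp.single 0 1) else 0) := by
    intro k ω i j hj y y'
    by_cases hA : A i k ω
    · rw [if_pos hA]
      have h1 := aff_of (l := lf i) (hle i) (k := k) (ω := ω) (j := j)
        (p := lG (fun j => u1 (Pl i j)) k ω j) (lG_deg1 _ k ω j (u1_deg _ (hJ i j hj)))
        (fun y => hF i k ω hA y j) y y'
      refine h1.trans ?_
      refine Finset.sum_congr rfl fun a _ => ?_
      have h2 : Fin.cast (hle i) a = 0 := Fin.ext (by omega)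
      rw [h2]
    · rw [if_neg hA]
      have h1 : (s.lf i).F k ω y = (s.lf i).F k ω y' := hF' i k ω hA y y'
      rw [h1, sub_self]
      simp
  have htan : ∀ (k : ℕ) (ω : (S.F k).Ω) (i : Fin r) (j : Fin m), j ∈ J → ∀ a : Fin (s.lf i).e,
      mtan (ob s k) ω ⟨i, a⟩ j =
        (if A i k ω then (lG (fun j => u1 (Pl i j)) k ω j).coeff (Finsupp.single 0 1) else 0) := by
    intro k ω i j hj a
    exact mtan_of s _ (key k ω i j hj) a
  refine ⟨s, hQx, hle, fun i c hc => ?_, fun i => ?_, ?_, ?_⟩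
  · have h1 := hw i c hc
    rw [hvd] at h1
    exact h1
  · have h1 := hw i 0 zero_le_one
    rw [hvd, QS.dg_nonpos t le_rfl, sup_bot_eq] at h1
    exact h1
  · refine Eventually.of_forall fun k ω _ i j hj y y' => ?_
    rw [key k ω i j hj y y']
    refine Finset.sum_congr rfl fun a _ => ?_
    rw [htan k ω i j hj a]
  · -- the variable of the slopes
    set Uf : Fin (r * m) → QS S := fun n =>
      if (finProdFinEquiv.symm n).2 ∈ J then (Pl (finProdFinEquiv.symm n).1 (finProdFinEquiv.symm n).2).coeff 1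
      else 0 with hUf
    set u : S.VV (r * m) := TR.vec fun n => QS.rep (Uf n) with hu
    have hudg : u.dg 1 = QS.vd Uf 1 := by
      rw [hu, ← vd_mk _ le_rfl]
      congr 1
      funext n
      exact QS.mk_rep _
    have hQdg : s.Q.dg 1 = QS.vd x 1 := by
      show Q.dg 1 = _
      rw [hQ, ← vd_mk _ le_rfl]
      congr 1
      funext n
      exact QS.mk_rep _
    have hle1 : QS.vd Uf 1 ≤ V := by
      rw [QS.vd_le]
      intro n
      simp only [hUf]
      split_ifs with hn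
      · exact hV _ _ hn
      · rw [QS.dg_of_mem_Id (r := 1) (Ideal.zero_mem _) le_rfl le_rfl]
        exact bot_le
    refine R1_of s J u A ?_ ?_
    · rw [hudg, hQdg]
      exact I_zero_mono hI (hle1.trans le_sup_left) le_sup_left
    · refine Eventually.of_forall fun k ω ω' _ _ hAA hc i a j hj => ?_
      rw [htan k ω i j hj a, htan k ω' i j hj a]
      by_cases hA : A i k ω
      · rw [if_pos hA, if_pos ((hAA i).mp hA), lG_coeff_eq, lG_coeff_eq]
        split_ifs with hb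
        · have h1 := rnd_of_cell hc (finProdFinEquiv (i, j))
          have h2 : ∀ ω, u.v k ω (finProdFinEquiv (i, j)) =
              TR.ev (QS.rep ((u1 (Pl i j)).coeff (Finsupp.single 0 1))) k ω := by
            intro ω
            show TR.ev (QS.rep (Uf (finProdFinEquiv (i, j)))) k ω = _
            have h3 : Uf (finProdFinEquiv (i, j)) = (u1 (Pl i j)).coeff (Finsupp.single 0 1) := by
              simp only [hUf, Equiv.symm_apply_apply]
              rw [if_pos hj, u1_coeff, Finsupp.single_eq_same]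
            rw [h3]
          rw [h2 ω, h2 ω'] at h1
          exact h1
        · rfl
      · rw [if_neg hA, if_neg fun h => hA ((hAA i).mpr h)]

end

end Pool.Agent.Helper21.PT
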